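import Mathlib
import Pool.Agent.H84.Hull

set_option autoImplicit false

namespace Pool.Agent.Results.MP_457a5a_gt.Counter

open Set Metric GromovHausdorff

theorem result : ∃ (γ : unitInterval → Type) (_ : ∀ t, MetricSpace (γ t))
    (_ : ∀ t, CompactSpace (γ t)) (_ : ∀ t, Nonempty (γ t))
    (X Y : Type) (_ : MetricSpace X) (_ : MetricSpace Y) (_ : CompactSpace X) (_ : CompactSpace Y)
    (φ : ∀ t, γ t → X) (ψ : ∀ t, γ t → Y),
    (∀ s t, ghDist (γ s) (γ t) = |(s : ℝ) - (t : ℝ)| * ghDist (γ 0) (γ 1)) ∧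
    IsEmpty (X ≃ᵢ Y) ∧
    (∀ t, Isometry (φ t)) ∧
    (∀ s t, hausdorffDist (range (φ s)) (range (φ t)) = ghDist (γ s) (γ t)) ∧
    (∀ t, Isometry (ψ t)) ∧
    (∀ s t, hausdorffDist (range (ψ s)) (range (ψ t)) = ghDist (γ s) (γ t)) ∧
    IsEmpty ((⋃ t, range (φ t) : Set X) ≃ᵢ (⋃ t, range (ψ t) : Set Y)) := by
  open Pool.Agent.H84.Hull in
  refine ⟨G, inferInstance, inferInstance, inferInstance, X 0, X 1, inferInstance, inferInstance,
    inferInstance, inferInstance, φ 0, φ 1, fun s t => ?_, noIso, φ_iso le_rfl zero_le_one,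
    hd_eq le_rfl zero_le_one, φ_iso zero_le_one le_rfl, hd_eq zero_le_one le_rfl, noIso'⟩
  simp [Pool.Agent.H84.Hull.gh_eq]

end Pool.Agent.Results.MP_457a5a_gt.Counter
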